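import Pool.Agent.X308.W.Final2

/-!
# Malle's upper bounds over a number field imply those over all its extensions, with the logarithms

`k` is a number field, `G ≤ S_n` is transitive, `n ≥ 2`.

First part: let `m ≥ 1` and `A ≤ S_m`. Suppose that the upper bound
`n_k(H, B) = O(B ^ (1 / ind H) (log B) ^ (β_k(H) - 1))` of the order predicted by Malle holds over `k`
for every transitive `H ≤ G ≀ A` whose block stabilisers induce the whole of `G` on their blocks.
Then there is a constant `C` such that for all extensions `K/k` of degree `m` with group `A` and all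
`B ≥ 2`, with `Y = B D ^ n`, `D` the norm of the relative discriminant of `K/k`,

`n_K(G, B) ≤ C Y ^ (1 / ind G) (log Y) ^ (β_k(G) - 1)`.

Second part: if the upper bound over `k` holds for all these groups `H`, for all `A`, then for every
number field `K ⊇ k` one has `β_k(G) ≤ β_K(G)` and
`n_K(G, B) = O(B ^ (1 / ind G) (log B) ^ (β_K(G) - 1))`, the upper bound of the predicted order.
-/

set_option autoImplicit false

namespace Pool.Agent.Results.MP_b39724_nt.UpperBoundsOverExtensions

open Pool.Agent.X308.W

theorem result (k : Type) [Field k] [NumberField k] (n : ℕ) (hn : 2 ≤ n)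
    (G : Subgroup (Equiv.Perm (Fin n))) (hG : Transitive G) :
    (∀ (m : ℕ) (A : Subgroup (Equiv.Perm (Fin m))), 1 ≤ m →
      (∀ H : Subgroup (Equiv.Perm (Fin (m * n))), Transitive H → TowerGroup A G H →
        PredictedUpper k H) →
      ∃ C : ℝ, 0 ≤ C ∧ ∀ (K : Type) [Field K] [NumberField K] [Algebra k K],
        Module.finrank k K = m → HasGroup k K (AlgebraicClosure k) A → ∀ B : ℝ, 2 ≤ B →
          (fields K G B).Finite ∧ (N K G B : ℝ) ≤
            C * ((B * (relDisc k K : ℝ) ^ n) ^ (1 / (minInd G : ℝ)) *
              (Real.log (B * (relDisc k K : ℝ) ^ n)) ^ (β k G - 1))) ∧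
    ((∀ (m : ℕ) (A : Subgroup (Equiv.Perm (Fin m))) (H : Subgroup (Equiv.Perm (Fin (m * n)))),
        1 ≤ m → Transitive H → TowerGroup A G H → PredictedUpper k H) →
      ∀ (K : Type) [Field K] [NumberField K] [Algebra k K],
        β k G ≤ β K G ∧ PredictedUpper K G) := by
  refine ⟨fun m A hm h => uniform' hn hm hG h, fun h K _ _ _ => ?_⟩
  have halg : Algebra.IsAlgebraic k K := Algebra.IsAlgebraic.tower_top (K := ℚ) k
  have hfin : FiniteDimensional k K := Module.Finite.of_restrictScalars_finite ℚ k K
  obtain ⟨A, hA⟩ := exists_hasGroup' k K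
  have hm : 1 ≤ Module.finrank k K := Module.finrank_pos
  exact ⟨β_mono K, predicted hn hm hG (fun H hH hT => h _ A H hm hH hT) K rfl hA⟩

end Pool.Agent.Results.MP_b39724_nt.UpperBoundsOverExtensions
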