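import Mathlib
import Pool.Agent.X257.ML.Occ
import Pool.Agent.TH444.ML.Done

/-!
# Malle's conjecture for the wreath products `C₂ ≀ H` over sufficiently large number fields

`H` is any finite group with a subgroup `U` which contains no nontrivial normal subgroup of `H` and
with `8 u (u + 1) ≤ |H|`, `u` the index of `U`; for example any transitive permutation group of
degree `u` and order at least `8 u (u + 1)`. The group `H` acts on itself by multiplication, and
`G = C₂ ≀ H` acts on `H × {0, 1}`. There is a number field `K₀` such that for all number fields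
`K ⊇ K₀` the number of isomorphism classes of `G`-extensions of `K` with discriminant of norm at
most `B` is `~ C B ^ (1 / ind G) (log B) ^ (β_K(G) - 1) = C B`.

New is the existence of `H`-extensions over all these fields `K`: `H` is realised regularly over
`ℚ̄(t)` by patching, the realisation descends to `K₀(t)` for a number field `K₀`, and can be
specialised over all number fields `K ⊇ K₀`.
-/

set_option autoImplicit false

open Filter

namespace Pool.Agent.Results.MP_b39724_nt.WreathProductsLargeBase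

/-- `G ≤ S_d` is, up to a bijection `f` of `{1, ..., d}` with `H × {0, 1}`, the wreath product
`C₂ ≀ H`: it consists of all permutations `π` for which there is `h ∈ H` such that `π` maps the block
`{x} × {0, 1}` to the block `{h x} × {0, 1}`, for all `x ∈ H`. -/
def IsC2Wreath (H : Type) [Group H] {d : ℕ} (G : Subgroup (Equiv.Perm (Fin d))) : Prop :=
  ∃ f : Fin d ≃ H × Bool, ∀ π : Equiv.Perm (Fin d), π ∈ G ↔ ∃ h : H, ∀ i, (f (π i)).1 = h * (f i).1

/-- The fields `L` between `K` and its algebraic closure, of degree `d` over `K`, whose Galois group,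
acting on the embeddings, is `G` (up to numbering), and whose relative discriminant has norm at most
`B` (that is, `|d_L| ≤ B |d_K| ^ d`). -/
def Ext (K : Type) [Field K] [NumberField K] (d : ℕ) (G : Subgroup (Equiv.Perm (Fin d)))
    (B : ℝ) : Set (IntermediateField K (AlgebraicClosure K)) :=
  {L | Module.finrank K L = d ∧
    (∃ e : (L →ₐ[K] AlgebraicClosure K) ≃ Fin d, ∀ π : Equiv.Perm (Fin d),
      π ∈ G ↔ ∃ σ : AlgebraicClosure K ≃ₐ[K] AlgebraicClosure K,
        ∀ φ : L →ₐ[K] AlgebraicClosure K, e (σ.toAlgHom.comp φ) = π (e φ)) ∧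
    ∃ h : NumberField L,
      ((|@NumberField.discr L _ h| : ℤ) : ℝ) ≤ B * ((|NumberField.discr K| : ℤ) : ℝ) ^ d}

/-- `n_K(G, B)`: the number of these fields up to `K`-isomorphism. -/
noncomputable def N (K : Type) [Field K] [NumberField K] (d : ℕ)
    (G : Subgroup (Equiv.Perm (Fin d))) (B : ℝ) : ℕ :=
  Nat.card (Quot fun L L' : Ext K d G B => Nonempty (L.1 ≃ₐ[K] L'.1))

/-- The index of a permutation: the degree minus the number of cycles (fixed points included). -/
def ind {d : ℕ} (g : Equiv.Perm (Fin d)) : ℕ := d - Multiset.card g.partition.parts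

/-- `ind(G)`: the least index of a nontrivial element of `G`. -/
noncomputable def minInd {d : ℕ} (G : Subgroup (Equiv.Perm (Fin d))) : ℕ :=
  sInf {k : ℕ | ∃ g ∈ G, g ≠ 1 ∧ k = ind g}

/-- `g` and `h` are `K`-conjugate in `G`: `h` is conjugate in `G` to `g ^ a`, where some `K`-automorphism
of the algebraic closure acts on the roots of unity of order dividing `|G|` by `ζ ↦ ζ ^ a`. -/
def KConj (K : Type) [Field K] {d : ℕ} (G : Subgroup (Equiv.Perm (Fin d)))
    (g h : Equiv.Perm (Fin d)) : Prop :=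
  ∃ (σ : AlgebraicClosure K ≃ₐ[K] AlgebraicClosure K) (a : ℕ),
    (∀ ζ : AlgebraicClosure K, ζ ^ Nat.card G = 1 → σ ζ = ζ ^ a) ∧
    ∃ x ∈ G, h = x * g ^ a * x⁻¹

/-- `β_K(G)`: the number of `K`-conjugacy classes of elements of `G` of least index. -/
noncomputable def β (K : Type) [Field K] {d : ℕ} (G : Subgroup (Equiv.Perm (Fin d))) : ℕ :=
  Nat.card (Quot fun g h : {g : Equiv.Perm (Fin d) // g ∈ G ∧ g ≠ 1 ∧ ind g = minInd G} =>
    KConj K G g.1 h.1)

/-- `H` has a faithful transitive action on `u` points (the cosets of `U`), `8 u (u + 1) ≤ |H|`. -/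
def HasSmallAction (H : Type) [Group H] : Prop :=
  ∃ U : Subgroup H, U.normalCore = ⊥ ∧ 8 * U.index * (U.index + 1) ≤ Nat.card H

/-- The group `C₂ ≀ H` exists, and is transitive. -/
theorem exists_group (H : Type) [Group H] [Finite H] : ∃ (d : ℕ)
    (G : Subgroup (Equiv.Perm (Fin d))), d = 2 * Nat.card H ∧ IsC2Wreath H G ∧
      ∀ i j : Fin d, ∃ g ∈ G, g i = j := by
  have hcard : Nat.card (H × Bool) = 2 * Nat.card H := by
    rw [Nat.card_prod, mul_comm]
    simp
  let f : Fin (2 * Nat.card H) ≃ H × Bool := (Finite.equivFinOfCardEq hcard).symm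
  let G : Subgroup (Equiv.Perm (Fin (2 * Nat.card H))) :=
    { carrier := {π | ∃ h : H, ∀ i, (f (π i)).1 = h * (f i).1}
      one_mem' := ⟨1, fun i => by simp⟩
      mul_mem' := by
        rintro π ρ ⟨h, hh⟩ ⟨h', hh'⟩
        refine ⟨h * h', fun i => ?_⟩
        rw [Equiv.Perm.mul_apply, hh, hh', mul_assoc]
      inv_mem' := by
        rintro π ⟨h, hh⟩
        refine ⟨h⁻¹, fun i => ?_⟩
        have h1 := hh (π⁻¹ i)
        rw [show π (π⁻¹ i) = i from π.apply_symm_apply i] at h1
        rw [h1, inv_mul_cancel_left] }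
  refine ⟨2 * Nat.card H, G, rfl, ⟨f, fun π => Iff.rfl⟩, fun i j => ?_⟩
  let t : Equiv.Perm (H × Bool) :=
    (Equiv.mulLeft ((f j).1 * (f i).1⁻¹)).prodCongr (Equiv.swap (f i).2 (f j).2)
  refine ⟨f.trans (t.trans f.symm), ⟨(f j).1 * (f i).1⁻¹, fun x => ?_⟩, ?_⟩
  · simp [t]
  · change f.symm (t (f i)) = j
    rw [Equiv.symm_apply_eq]
    exact Prod.ext (by simp [t]) (by simp [t])

theorem ind_eq {d : ℕ} (g : Equiv.Perm (Fin d)) : ind g = Pool.Agent.TH444.ML.ind g := by
  have h1 := Pool.Agent.TH444.ML.two_card_le g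
  have h2 : g.support.card ≤ d := by
    simpa using Finset.card_le_univ g.support
  unfold ind Pool.Agent.TH444.ML.ind
  rw [Equiv.Perm.parts_partition, Multiset.card_add, Multiset.card_replicate,
    Equiv.Perm.sum_cycleType, Fintype.card_fin]
  rw [Equiv.Perm.sum_cycleType] at h1
  omega

theorem minInd_eq {H : Type} [Group H] [Finite H] {d : ℕ} {G : Subgroup (Equiv.Perm (Fin d))}
    (hG : IsC2Wreath H G) : minInd G = 1 := by
  have h := Pool.Agent.TH444.ML.least_ind (H := H) hG
  have h1 : {k : ℕ | ∃ g ∈ G, g ≠ 1 ∧ k = ind g} =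
      {k : ℕ | ∃ g ∈ G, g ≠ 1 ∧ k = Pool.Agent.TH444.ML.ind g} := by
    simp only [ind_eq]
  unfold minInd
  rw [h1]
  exact h.csInf_eq

theorem β_eq (K : Type) [Field K] {H : Type} [Group H] [Finite H] (h2 : 2 ≤ Nat.card H) {d : ℕ}
    {G : Subgroup (Equiv.Perm (Fin d))} (hG : IsC2Wreath H G) : β K G = 1 := by
  unfold β
  rw [Nat.card_eq_one_iff_unique]
  constructor
  · constructor
    intro x y
    induction x using Quot.inductionOn with
    | h g =>
      induction y using Quot.inductionOn with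
      | h g' =>
        apply Quot.sound
        have hm := minInd_eq hG
        have h1 := (ind_eq g.1).symm.trans (g.2.2.2.trans hm)
        have h1' := (ind_eq g'.1).symm.trans (g'.2.2.2.trans hm)
        obtain ⟨c, hc⟩ := isConj_iff.1 (Pool.Agent.TH444.ML.conj_of_ind_one h2 hG
          ⟨g.1, g.2.1⟩ ⟨g'.1, g'.2.1⟩ h1 h1')
        refine ⟨AlgEquiv.refl, 1, fun ζ _ => by simp, c.1, c.2, ?_⟩
        rw [pow_one]
        exact (congrArg Subtype.val hc).symm
  · obtain ⟨g, h3, h4, h5⟩ := Pool.Agent.TH444.ML.exists_ind_one (H := H) hG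
    exact ⟨Quot.mk _ ⟨g, h3, h4, by rw [minInd_eq hG, ind_eq, h5]⟩⟩

theorem hasSmallAction_prod (Γ : Type) [Group Γ] [Finite Γ] (m : ℕ)
    (hm : 8 * Nat.card Γ + 12 ≤ m) : HasSmallAction (Γ × Equiv.Perm (Fin m)) := by
  obtain ⟨k, rfl⟩ : ∃ k, m = k + 4 := ⟨m - 4, by omega⟩
  let S : Subgroup (Equiv.Perm (Fin (k + 4))) := MulAction.stabilizer _ (0 : Fin (k + 4))
  let U : Subgroup (Γ × Equiv.Perm (Fin (k + 4))) := (⊥ : Subgroup Γ).prod S
  have hS : S.index = k + 4 := by
    show (MulAction.stabilizer (Equiv.Perm (Fin (k + 4))) (0 : Fin (k + 4))).index = k + 4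
    rw [MulAction.index_stabilizer, MulAction.orbit_eq_univ]
    simp
  have hU : U.index = Nat.card Γ * (k + 4) := by
    show ((⊥ : Subgroup Γ).prod S).index = _
    rw [Subgroup.index_prod, hS, Subgroup.index_bot]
  refine ⟨U, ?_, ?_⟩
  · rw [eq_bot_iff]
    rintro ⟨a, π⟩ h
    have h1 : ∀ x : Γ × Equiv.Perm (Fin (k + 4)), x * (a, π) * x⁻¹ ∈ U := h
    have ha : a = 1 := by
      have := (h1 1)
      rw [one_mul, inv_one, mul_one] at this
      exact (Subgroup.mem_prod.1 this).1
    have hπ : π = 1 := by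
      ext i
      have h2 := (Subgroup.mem_prod.1 (h1 (1, Equiv.swap 0 i))).2
      have h3 : (Equiv.swap 0 i * π * (Equiv.swap 0 i)⁻¹) (0 : Fin (k + 4)) = 0 := h2
      rw [Equiv.Perm.mul_apply, Equiv.Perm.mul_apply, Equiv.swap_inv, Equiv.swap_apply_left] at h3
      have h4 := congrArg (Equiv.swap 0 i) h3
      rw [Equiv.swap_apply_self, Equiv.swap_apply_left] at h4
      rw [h4]; rfl
    rw [ha, hπ]
    exact one_mem _
  · rw [hU, Nat.card_prod, Nat.card_perm, Nat.card_fin]
    set g := Nat.card Γ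
    have hf : (k + 4).factorial = (k + 4) * ((k + 3) * ((k + 2) * ((k + 1) * k.factorial))) := by
      simp only [Nat.factorial_succ]
    have hk : 1 ≤ k.factorial := Nat.factorial_pos k
    have h1 : 8 * (g * (k + 4) + 1) ≤ (k + 3) * ((k + 2) * ((k + 1) * k.factorial)) := by
      have h2 : 8 * (g * (k + 4) + 1) ≤ (k + 3) * ((k + 2) * (k + 1)) := by
        have h3 : 8 * g + 8 ≤ k + 1 := by omega
        have h4 : (k + 5) * (8 * g + 8) ≤ ((k + 3) * (k + 2)) * (k + 1) :=
          Nat.mul_le_mul (by nlinarith) h3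
        nlinarith
      calc 8 * (g * (k + 4) + 1) ≤ (k + 3) * ((k + 2) * (k + 1)) := h2
        _ ≤ (k + 3) * ((k + 2) * ((k + 1) * k.factorial)) := by
          gcongr
          exact Nat.le_mul_of_pos_right _ hk
    rw [hf]
    calc 8 * (g * (k + 4)) * (g * (k + 4) + 1)
        = g * ((k + 4) * (8 * (g * (k + 4) + 1))) := by ring
      _ ≤ _ := by gcongr

end Pool.Agent.Results.MP_b39724_nt.WreathProductsLargeBase

open Pool.Agent.Results.MP_b39724_nt.WreathProductsLargeBase in
/-- **Malle's conjecture over sufficiently large number fields for `C₂ ≀ H`**: `H` is any finite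
group with a faithful transitive action on `u` points, `8 u (u + 1) ≤ |H|`. These groups include
`Γ × S_m` for all finite groups `Γ` and all `m ≥ 8 |Γ| + 12`. -/
theorem Pool.Agent.Results.MP_b39724_nt.WreathProductsLargeBase.result :
    (∀ (H : Type) [Group H] [Finite H], HasSmallAction H →
      (∃ (d : ℕ) (G : Subgroup (Equiv.Perm (Fin d))), d = 2 * Nat.card H ∧ IsC2Wreath H G ∧
        ∀ i j : Fin d, ∃ g ∈ G, g i = j) ∧
      ∀ (d : ℕ) (G : Subgroup (Equiv.Perm (Fin d))), IsC2Wreath H G → minInd G = 1 ∧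
        ∃ (K₀ : Type) (_ : Field K₀), NumberField K₀ ∧
          ∀ (K : Type) [Field K] [NumberField K] [Algebra K₀ K], β K G = 1 ∧
            ∃ C : ℝ, 0 < C ∧ Tendsto (fun B : ℝ => (N K d G B : ℝ) /
              (B ^ (1 / (minInd G : ℝ)) * Real.log B ^ (β K G - 1))) atTop (nhds C)) ∧
    ∀ (Γ : Type) [Group Γ] [Finite Γ] (m : ℕ), 8 * Nat.card Γ + 12 ≤ m →
      HasSmallAction (Γ × Equiv.Perm (Fin m)) := by
  refine ⟨fun H _ _ hH => ⟨exists_group H, fun d G hG => ⟨minInd_eq hG, ?_⟩⟩,
    fun Γ _ _ m hm => hasSmallAction_prod Γ m hm⟩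
  obtain ⟨U, hU, hc⟩ := hH
  have h2 : 2 ≤ Nat.card H := by
    have h1 : U.index ≠ 0 := Subgroup.index_ne_zero_of_finite
    have h3 : 1 ≤ U.index := Nat.pos_of_ne_zero h1
    nlinarith
  obtain ⟨K₀, i₀, hK₀, hr⟩ := Pool.Agent.X257.ML.exists_numberField_gal H
  refine ⟨K₀, i₀, hK₀, fun K _ _ _ => ?_⟩
  obtain ⟨c, hc0, hlim⟩ := Pool.Agent.TH444.ML.asymp_iso Pool.Agent.TH444.ML.rest K H h2 U hU hc
    (hr K) G hG
  refine ⟨β_eq K h2 hG, c, hc0, ?_⟩
  rw [minInd_eq hG, β_eq K h2 hG]
  simp only [Nat.cast_one, div_one, Real.rpow_one, Nat.sub_self, pow_zero, mul_one]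
  exact hlim
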